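import Mathlib

/-!
# Combinatorial types of arrangements of planar convex bodies are not locally determined

For every `t ≥ 4` and every `m` we construct two arrangements of planar convex bodies on the same
index set, all pairs of bodies having at most `4` common supporting tangents, such that all
sub-arrangements on `m` indices have the same combinatorial type while the whole arrangements
have different combinatorial types.  So the integer `m_t` of the question does not exist for any
`t ≥ 4`.

Idea: a long chain of nested bodies in which only consecutive bodies have common supporting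
tangents (four of them, in a pattern invariant under the rotation by `π`), with a body at the
bottom and one at the top of the chain which break the symmetry.  The two arrangements differ by
rotating the top body by `π`.  As soon as one body of the chain is removed, the two halves of the
chain can be rotated independently.
-/

set_option autoImplicit false

namespace Pool.Agent.Results.MP_f9fe38_co.NoLocalBound

/-! ## Definitions -/

/-- The Euclidean plane. -/
abbrev Plane : Type := EuclideanSpace ℝ (Fin 2)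

/-- The unit vector `(cos θ, sin θ)`. -/
noncomputable def dir (θ : Real.Angle) : Plane := !₂[θ.cos, θ.sin]

/-- Directed lines of the plane are encoded by pairs `ℓ = (θ, c)` with `θ` an angle and `c` real:
`ℓ` is the line `⟨x, (cos θ, sin θ)⟩ = c`, directed so that the half plane
`⟨x, (cos θ, sin θ)⟩ ≤ c` lies on its left.  This is the underlying set of points of `ℓ`. -/
def lineOf (l : Real.Angle × ℝ) : Set Plane := {x | inner ℝ x (dir l.1) = l.2}

/-- The closed half plane to the left of the directed line `l`. -/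
def leftSide (l : Real.Angle × ℝ) : Set Plane := {x | inner ℝ x (dir l.1) ≤ l.2}

/-- The directed line `l` is a supporting tangent of the body `A` with `A` on its left side. -/
def IsSupportingTangent (A : ConvexBody Plane) (l : Real.Angle × ℝ) : Prop :=
  (A : Set Plane) ⊆ leftSide l ∧ ((A : Set Plane) ∩ lineOf l).Nonempty

/-- The set of common supporting tangents of two bodies. -/
def commonTangents (A B : ConvexBody Plane) : Set (Real.Angle × ℝ) :=
  {l | IsSupportingTangent A l ∧ IsSupportingTangent B l}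

/-- A family of bodies is an arrangement: every two bodies intersect transversally (no point of
their intersection lies on a common supporting tangent), no three bodies share a common supporting
tangent, and there are finitely many common supporting tangents. -/
structure IsArrangement {L : Type} (A : L → ConvexBody Plane) : Prop where
  transversal : ∀ i j, i ≠ j → ∀ l ∈ commonTangents (A i) (A j),
    (A i : Set Plane) ∩ (A j : Set Plane) ∩ lineOf l = ∅
  no_three : ∀ i j k, i ≠ j → i ≠ k → j ≠ k → ∀ l,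
    ¬ (IsSupportingTangent (A i) l ∧ IsSupportingTangent (A j) l ∧ IsSupportingTangent (A k) l)
  finite : {l | ∃ i j, i ≠ j ∧ l ∈ commonTangents (A i) (A j)}.Finite

/-- The support function `h_A(θ) = max_{x ∈ A} ⟨x, (cos θ, sin θ)⟩`. -/
noncomputable def supportFunction (A : ConvexBody Plane) (θ : Real.Angle) : ℝ :=
  sSup ((fun x : Plane => inner ℝ x (dir θ)) '' (A : Set Plane))

/-- The support curve of a body: the graph of its support function in the cylinder. -/
def supportCurve (A : ConvexBody Plane) : Set (Real.Angle × ℝ) :=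
  {p | p.2 = supportFunction A p.1}

/-- The projection of the universal cover `ℝ × ℝ` onto the cylinder. -/
noncomputable def toCylinder (p : ℝ × ℝ) : Real.Angle × ℝ := ((p.1 : Real.Angle), p.2)

/-- A self-map of the cylinder preserves the direction in which the cylinder is run around: it
lifts to a continuous self-map of the universal cover which commutes with the translation by `2π`.
A self-homeomorphism of the cylinder which preserves the end `+∞` is orientation-preserving
exactly when it has this property. -/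
def PreservesDirection (φ : Real.Angle × ℝ → Real.Angle × ℝ) : Prop :=
  ∃ Φ : ℝ × ℝ → ℝ × ℝ, Continuous Φ ∧ (∀ p, toCylinder (Φ p) = φ (toCylinder p)) ∧
    ∀ x y : ℝ, Φ (x + 2 * Real.pi, y) = Φ (x, y) + (2 * Real.pi, 0)

/-- A self-map of the cylinder preserves `+∞`: the second coordinate of `φ (θ, y)` is positive for
all `θ` once `y` is large. -/
def PreservesTop (φ : Real.Angle × ℝ → Real.Angle × ℝ) : Prop :=
  ∃ y₀ : ℝ, ∀ y : ℝ, y₀ ≤ y → ∀ θ : Real.Angle, 0 < (φ (θ, y)).2

/-- Two families of bodies on the same index set have the same combinatorial type: some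
orientation-preserving self-homeomorphism of the cylinder preserves `+∞` and carries, for every
index, the support curve of the first body onto the support curve of the second. -/
def SameType {L : Type} (A B : L → ConvexBody Plane) : Prop :=
  ∃ φ : (Real.Angle × ℝ) ≃ₜ (Real.Angle × ℝ), PreservesTop φ ∧ PreservesDirection φ ∧
    ∀ i, φ '' supportCurve (A i) = supportCurve (B i)

/-- The property of the question: for arrangements in which any two bodies have at most `t` common
supporting tangents, the combinatorial type is determined by the combinatorial types of the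
sub-arrangements on `min m |L|` indices. -/
def LocallyDetermined (t m : ℕ) : Prop :=
  ∀ (L : Type) [Finite L] [Nonempty L] (A B : L → ConvexBody Plane),
    IsArrangement A → IsArrangement B →
    (∀ i j, i ≠ j → (commonTangents (A i) (A j)).ncard ≤ t) →
    (∀ i j, i ≠ j → (commonTangents (B i) (B j)).ncard ≤ t) →
    (∀ S : Set L, S.ncard = min m (Nat.card L) →
      SameType (fun i : S => A i) (fun i : S => B i)) →
    SameType A B

/-! ## Bodies with support function `r + p cos θ + q cos 2θ` -/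

/-- The function `r + p cos θ + q cos 2θ`. -/
noncomputable def hf (r p q : ℝ) (θ : Real.Angle) : ℝ :=
  r + p * θ.cos + q * (2 * θ.cos ^ 2 - 1)

/-- The intersection of the half planes given by `hf`. -/
def hset (r p q : ℝ) : Set Plane := {x | ∀ θ : Real.Angle, inner ℝ x (dir θ) ≤ hf r p q θ}

/-- The support point. -/
noncomputable def spt (r p q : ℝ) (θ : Real.Angle) : Plane :=
  !₂[hf r p q θ * θ.cos - (-(p * θ.sin) - 4 * q * θ.cos * θ.sin) * θ.sin,
     hf r p q θ * θ.sin + (-(p * θ.sin) - 4 * q * θ.cos * θ.sin) * θ.cos]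

theorem inner_dir (x : Plane) (θ : Real.Angle) :
    inner ℝ x (dir θ) = x 0 * θ.cos + x 1 * θ.sin := by
  simp [dir, PiLp.inner_apply, Fin.sum_univ_two]
  ring

theorem spt_inner_self (r p q : ℝ) (θ : Real.Angle) :
    inner ℝ (spt r p q θ) (dir θ) = hf r p q θ := by
  rw [inner_dir]
  simp only [spt]
  have h := Real.Angle.cos_sq_add_sin_sq θ
  simp
  linear_combination (hf r p q θ) * h

theorem aux_bound (r q c s C S : ℝ) (hr : 5 * |q| ≤ r) (h1 : c ^ 2 + s ^ 2 = 1)
    (h2 : C ^ 2 + S ^ 2 = 1) :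
    0 ≤ (1 - C) * (r - q * ((2 * c ^ 2 - 1) * (2 * C + 1) - 4 * c * s * S)) := by
  have hC1 : C ≤ 1 := by nlinarith [sq_nonneg S]
  have hC2 : -1 ≤ C := by nlinarith [sq_nonneg S]
  have hb1 : |2 * c ^ 2 - 1| ≤ 1 := by
    rw [abs_le]; constructor <;> nlinarith [sq_nonneg s, sq_nonneg c]
  have hb2 : |2 * C + 1| ≤ 3 := by
    rw [abs_le]; constructor <;> linarith
  have hb3 : |2 * c * s| ≤ 1 := by
    rw [abs_le]; constructor <;> nlinarith [sq_nonneg (s - c), sq_nonneg (c + s)]
  have hb4 : |S| ≤ 1 := by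
    rw [abs_le]; constructor <;> nlinarith [sq_nonneg C]
  have hb5 : |(2 * c ^ 2 - 1) * (2 * C + 1)| ≤ 3 := by
    rw [abs_mul]
    calc |2 * c ^ 2 - 1| * |2 * C + 1| ≤ 1 * 3 :=
          mul_le_mul hb1 hb2 (abs_nonneg _) (by norm_num)
      _ = 3 := by norm_num
  have hb6 : |(2 * c * s) * S| ≤ 1 := by
    rw [abs_mul]
    calc |2 * c * s| * |S| ≤ 1 * 1 := mul_le_mul hb3 hb4 (abs_nonneg _) (by norm_num)
      _ = 1 := by norm_num
  have hb7 : |(2 * c ^ 2 - 1) * (2 * C + 1) - 4 * c * s * S| ≤ 5 := by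
    obtain ⟨u1, u2⟩ := abs_le.mp hb5
    obtain ⟨v1, v2⟩ := abs_le.mp hb6
    rw [abs_le]; constructor <;> linarith
  have hb8 : q * ((2 * c ^ 2 - 1) * (2 * C + 1) - 4 * c * s * S) ≤ r := by
    calc q * ((2 * c ^ 2 - 1) * (2 * C + 1) - 4 * c * s * S)
        ≤ |q * ((2 * c ^ 2 - 1) * (2 * C + 1) - 4 * c * s * S)| := le_abs_self _
      _ = |q| * |(2 * c ^ 2 - 1) * (2 * C + 1) - 4 * c * s * S| := abs_mul _ _
      _ ≤ |q| * 5 := mul_le_mul_of_nonneg_left hb7 (abs_nonneg _)
      _ ≤ r := by linarith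
  exact mul_nonneg (by linarith) (by linarith)

theorem aux_key (r p q c s C S : ℝ) (h1 : c ^ 2 + s ^ 2 = 1) (h2 : C ^ 2 + S ^ 2 = 1) :
    (r + p * (c * C - s * S) + q * (2 * (c * C - s * S) ^ 2 - 1)) -
      (((r + p * c + q * (2 * c ^ 2 - 1)) * c - (-(p * s) - 4 * q * c * s) * s) * (c * C - s * S)
      + ((r + p * c + q * (2 * c ^ 2 - 1)) * s + (-(p * s) - 4 * q * c * s) * c) *
        (s * C + c * S))
      = (1 - C) * (r - q * ((2 * c ^ 2 - 1) * (2 * C + 1) - 4 * c * s * S)) := by
  have key2 : 2 * (c * C - s * S) ^ 2 - 1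
      = (2 * c ^ 2 - 1) * (2 * C ^ 2 - 1) - 4 * c * s * C * S := by
    linear_combination 2 * S ^ 2 * h1 + 2 * (1 - c ^ 2) * h2
  linear_combination q * key2 - ((r + p * c + q * (2 * c ^ 2 - 1)) * C
      + (-(p * s) - 4 * q * c * s) * S) * h1

theorem spt_mem (r p q : ℝ) (hr : 5 * |q| ≤ r) (θ : Real.Angle) : spt r p q θ ∈ hset r p q := by
  intro ψ
  obtain ⟨δ, hδ⟩ : ∃ δ : Real.Angle, ψ = θ + δ := ⟨ψ - θ, by abel⟩
  subst hδ
  rw [inner_dir]
  have hc : (θ + δ).cos = θ.cos * δ.cos - θ.sin * δ.sin := Real.Angle.cos_add θ δ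
  have hs : (θ + δ).sin = θ.sin * δ.cos + θ.cos * δ.sin := Real.Angle.sin_add θ δ
  have h1 := Real.Angle.cos_sq_add_sin_sq θ
  have h2 := Real.Angle.cos_sq_add_sin_sq δ
  have e0 : (spt r p q θ) 0 = (r + p * θ.cos + q * (2 * θ.cos ^ 2 - 1)) * θ.cos
      - (-(p * θ.sin) - 4 * q * θ.cos * θ.sin) * θ.sin := by simp [spt, hf]
  have e1 : (spt r p q θ) 1 = (r + p * θ.cos + q * (2 * θ.cos ^ 2 - 1)) * θ.sin
      + (-(p * θ.sin) - 4 * q * θ.cos * θ.sin) * θ.cos := by simp [spt, hf]
  rw [e0, e1, hs]
  unfold hf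
  rw [hc]
  have k1 := aux_key r p q θ.cos θ.sin δ.cos δ.sin h1 h2
  have k2 := aux_bound r q θ.cos θ.sin δ.cos δ.sin hr h1 h2
  linarith

theorem continuous_inner_dir (θ : Real.Angle) : Continuous fun x : Plane => inner ℝ x (dir θ) := by
  fun_prop

theorem hset_closed (r p q : ℝ) : IsClosed (hset r p q) := by
  have : hset r p q = ⋂ θ : Real.Angle, {x : Plane | inner ℝ x (dir θ) ≤ hf r p q θ} := by
    ext x; simp [hset]
  rw [this]
  exact isClosed_iInter fun θ => isClosed_le (continuous_inner_dir θ) continuous_const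

theorem hset_convex (r p q : ℝ) : Convex ℝ (hset r p q) := by
  intro x hx y hy a b ha hb hab θ
  have h1 := hx θ
  have h2 := hy θ
  rw [inner_add_left, inner_smul_left, inner_smul_left]
  simp only [conj_trivial]
  calc a * inner ℝ x (dir θ) + b * inner ℝ y (dir θ) ≤ a * hf r p q θ + b * hf r p q θ :=
        add_le_add (mul_le_mul_of_nonneg_left h1 ha) (mul_le_mul_of_nonneg_left h2 hb)
    _ = hf r p q θ := by rw [← add_mul, hab, one_mul]

theorem hf_le (r p q : ℝ) (θ : Real.Angle) : hf r p q θ ≤ r + |p| + |q| := by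
  have h1 := Real.Angle.cos_sq_add_sin_sq θ
  have hb0 : |θ.cos| ≤ 1 := by
    rw [abs_le]; constructor <;> nlinarith [sq_nonneg θ.sin]
  have hb1 : |2 * θ.cos ^ 2 - 1| ≤ 1 := by
    rw [abs_le]; constructor <;> nlinarith [sq_nonneg θ.sin, sq_nonneg θ.cos]
  have h3 : p * θ.cos ≤ |p| := by
    calc p * θ.cos ≤ |p * θ.cos| := le_abs_self _
      _ = |p| * |θ.cos| := abs_mul _ _
      _ ≤ |p| * 1 := mul_le_mul_of_nonneg_left hb0 (abs_nonneg _)
      _ = |p| := mul_one _
  have h4 : q * (2 * θ.cos ^ 2 - 1) ≤ |q| := by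
    calc q * (2 * θ.cos ^ 2 - 1) ≤ |q * (2 * θ.cos ^ 2 - 1)| := le_abs_self _
      _ = |q| * |2 * θ.cos ^ 2 - 1| := abs_mul _ _
      _ ≤ |q| * 1 := mul_le_mul_of_nonneg_left hb1 (abs_nonneg _)
      _ = |q| := mul_one _
  unfold hf
  linarith

theorem hset_bounded (r p q : ℝ) : Bornology.IsBounded (hset r p q) := by
  rw [isBounded_iff_forall_norm_le]
  refine ⟨2 * (r + |p| + |q|), fun x hx => ?_⟩
  set K := r + |p| + |q|
  have b1 : x 0 ≤ K := by
    have := hx (0 : Real.Angle)
    rw [inner_dir] at this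
    simp only [Real.Angle.cos_zero, Real.Angle.sin_zero] at this
    linarith [hf_le r p q 0]
  have b2 : -(x 0) ≤ K := by
    have := hx (Real.pi : Real.Angle)
    rw [inner_dir] at this
    simp only [Real.Angle.cos_coe, Real.Angle.sin_coe, Real.cos_pi, Real.sin_pi] at this
    linarith [hf_le r p q (Real.pi : Real.Angle)]
  have b3 : x 1 ≤ K := by
    have := hx ((Real.pi / 2 : ℝ) : Real.Angle)
    rw [inner_dir] at this
    simp only [Real.Angle.cos_coe, Real.Angle.sin_coe, Real.cos_pi_div_two,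
      Real.sin_pi_div_two] at this
    linarith [hf_le r p q ((Real.pi / 2 : ℝ) : Real.Angle)]
  have b4 : -(x 1) ≤ K := by
    have := hx ((-(Real.pi / 2) : ℝ) : Real.Angle)
    rw [inner_dir] at this
    simp only [Real.Angle.cos_coe, Real.Angle.sin_coe, Real.cos_neg, Real.sin_neg,
      Real.cos_pi_div_two, Real.sin_pi_div_two] at this
    linarith [hf_le r p q ((-(Real.pi / 2) : ℝ) : Real.Angle)]
  have hK : 0 ≤ K := by linarith
  rw [EuclideanSpace.norm_eq]
  apply Real.sqrt_le_iff.mpr
  refine ⟨by linarith, ?_⟩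
  simp only [Fin.sum_univ_two, Real.norm_eq_abs, sq_abs]
  nlinarith

/-- The body with support function `hf r p q`. -/
noncomputable def body (r p q : ℝ) (hr : 5 * |q| ≤ r) : ConvexBody Plane where
  carrier := hset r p q
  convex' := hset_convex r p q
  isCompact' := Metric.isCompact_of_isClosed_isBounded (hset_closed r p q) (hset_bounded r p q)
  nonempty' := ⟨spt r p q 0, spt_mem r p q hr 0⟩

theorem coe_body (r p q : ℝ) (hr : 5 * |q| ≤ r) : (body r p q hr : Set Plane) = hset r p q := rfl

theorem supportFunction_body (r p q : ℝ) (hr : 5 * |q| ≤ r) (θ : Real.Angle) :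
    supportFunction (body r p q hr) θ = hf r p q θ := by
  unfold supportFunction
  rw [coe_body]
  apply IsGreatest.csSup_eq
  constructor
  · exact ⟨spt r p q θ, spt_mem r p q hr θ, spt_inner_self r p q θ⟩
  · rintro _ ⟨x, hx, rfl⟩
    exact hx θ

theorem isSupportingTangent_body (r p q : ℝ) (hr : 5 * |q| ≤ r) (l : Real.Angle × ℝ) :
    IsSupportingTangent (body r p q hr) l ↔ l.2 = hf r p q l.1 := by
  unfold IsSupportingTangent
  rw [coe_body]
  constructor
  · rintro ⟨h1, x, hx, hx2⟩
    have h3 := h1 (spt_mem r p q hr l.1)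
    simp only [leftSide, Set.mem_ofPred_eq, spt_inner_self] at h3
    have h4 := hx l.1
    simp only [lineOf, Set.mem_ofPred_eq] at hx2
    linarith
  · intro h
    refine ⟨fun x hx => ?_, spt r p q l.1, spt_mem r p q hr l.1, ?_⟩
    · simp only [leftSide, Set.mem_ofPred_eq]
      rw [h]
      exact hx l.1
    · simp only [lineOf, Set.mem_ofPred_eq]
      rw [h]
      exact spt_inner_self r p q l.1

/-- If a point of the body lies on the supporting tangent at angle `t`, then it is determined by
the derivative of the support function. -/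
theorem tangency (r p q : ℝ) (x : Plane) (hx : x ∈ hset r p q) (t : ℝ)
    (ht : inner ℝ x (dir (t : Real.Angle)) = hf r p q (t : Real.Angle)) :
    x 0 * Real.sin t - x 1 * Real.cos t = Real.sin t * (p + 4 * q * Real.cos t) := by
  have hmin : IsLocalMin (fun u : ℝ => r + p * Real.cos u + q * (2 * Real.cos u ^ 2 - 1)
      - (x 0 * Real.cos u + x 1 * Real.sin u)) t := by
    apply Filter.Eventually.of_forall
    intro u
    have h1 := hx (u : Real.Angle)
    rw [inner_dir] at h1 ht
    simp only [hf, Real.Angle.cos_coe, Real.Angle.sin_coe] at h1 ht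
    linarith
  have hd : HasDerivAt (fun u : ℝ => r + p * Real.cos u + q * (2 * Real.cos u ^ 2 - 1)
      - (x 0 * Real.cos u + x 1 * Real.sin u))
      (0 + p * (-Real.sin t) + q * (2 * (((2 : ℕ) : ℝ) * Real.cos t ^ (2 - 1) * (-Real.sin t)) - 0)
        - (x 0 * (-Real.sin t) + x 1 * Real.cos t)) t := by
    have hcos := Real.hasDerivAt_cos t
    have hsin := Real.hasDerivAt_sin t
    exact ((((hasDerivAt_const t r).add (hcos.const_mul p)).add
      ((((hcos.pow 2).const_mul 2).sub (hasDerivAt_const t 1)).const_mul q)).sub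
      ((hcos.const_mul (x 0)).add (hsin.const_mul (x 1))))
  have h0 := hmin.hasDerivAt_eq_zero hd
  norm_num at h0
  linear_combination h0

theorem disjoint_of_transversal (r p q r' p' q' : ℝ) (l : Real.Angle × ℝ)
    (h : l.2 = hf r p q l.1) (h' : l.2 = hf r' p' q' l.1)
    (hne : l.1.sin * ((p - p') + 4 * (q - q') * l.1.cos) ≠ 0) :
    hset r p q ∩ hset r' p' q' ∩ lineOf l = ∅ := by
  rw [Set.eq_empty_iff_forall_notMem]
  rintro x ⟨⟨hx, hx'⟩, hl⟩
  obtain ⟨θ, c⟩ := l
  induction θ using Real.Angle.induction_on with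
  | _ t =>
    simp only [lineOf, Set.mem_ofPred_eq] at hl
    simp only at h h'
    have e1 := tangency r p q x hx t (by rw [hl, h])
    have e2 := tangency r' p' q' x hx' t (by rw [hl, h'])
    apply hne
    simp only [Real.Angle.cos_coe, Real.Angle.sin_coe]
    linear_combination e2 - e1

/-! ## The two chains of bodies -/

/-- The amplitude `√2 / 2`. -/
noncomputable def amp : ℝ := Real.cos (Real.pi / 4)

/-- `cos (π / 8)`. -/
noncomputable def gam : ℝ := Real.cos (Real.pi / 8)

theorem amp_sq : 2 * amp ^ 2 = 1 := by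
  unfold amp
  rw [Real.cos_pi_div_four, div_pow, Real.sq_sqrt (by norm_num)]
  norm_num

theorem amp_pos : 0 < amp := by
  unfold amp
  rw [Real.cos_pi_div_four]
  positivity

theorem amp_gt : 7 / 10 < amp := by
  by_contra h
  have h1 := amp_sq
  have h2 := amp_pos
  nlinarith

theorem amp_lt : amp < 3 / 4 := by
  by_contra h
  have h1 := amp_sq
  have h2 := amp_pos
  nlinarith

theorem gam_sq : 2 * gam ^ 2 - 1 = amp := by
  unfold gam amp
  rw [← Real.cos_two_mul]
  congr 1
  ring

theorem gam_pos : 0 < gam := by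
  unfold gam
  apply Real.cos_pos_of_mem_Ioo
  constructor <;> linarith [Real.pi_pos]

theorem gam_gt : 9 / 10 < gam := by
  by_contra h
  have h1 := gam_sq
  have h2 := gam_pos
  have h3 := amp_gt
  nlinarith

theorem gam_lt : gam < 1 := by
  by_contra h
  have h1 := gam_sq
  have h2 := gam_pos
  have h3 := amp_lt
  nlinarith

/-- Constant coefficients. -/
noncomputable def rr (N i : ℕ) : ℝ :=
  if i = 0 then 10 + 1 / 2 - gam / 2 else if i ≤ N then 10 + i else 10 + N + 1 / 2 + gam / 2

/-- Coefficients of `cos θ`. -/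
noncomputable def pp (N : ℕ) (e : ℝ) (i : ℕ) : ℝ :=
  if i = 0 then 1 / 2 else if i ≤ N then 0 else -(e / 2)

/-- Coefficients of `cos 2θ`. -/
noncomputable def qq (N i : ℕ) : ℝ :=
  if i = 0 then 0 else if i ≤ N then (-1) ^ i * amp else 0

theorem rr_ge (N i : ℕ) : 10 ≤ rr N i := by
  have := gam_lt
  have := gam_pos
  have h1 : (0 : ℝ) ≤ i := Nat.cast_nonneg i
  have h2 : (0 : ℝ) ≤ N := Nat.cast_nonneg N
  unfold rr
  split_ifs <;> linarith

theorem abs_qq_le (N i : ℕ) : |qq N i| ≤ amp := by
  have := amp_pos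
  unfold qq
  split_ifs
  · simpa using this.le
  · rw [abs_mul, abs_pow, abs_neg, abs_one, one_pow, one_mul, abs_of_pos this]
  · simpa using this.le

theorem five_qq (N i : ℕ) : 5 * |qq N i| ≤ rr N i := by
  have h1 := abs_qq_le N i
  have h2 := rr_ge N i
  have h3 := amp_lt
  linarith

/-- The chain of bodies: the parameter `e = 1` or `e = -1` decides on which side the top body
meets the one below it. -/
noncomputable def fam (N : ℕ) (e : ℝ) (i : Fin (N + 2)) : ConvexBody Plane :=
  body (rr N i) (pp N e i) (qq N i) (five_qq N i)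

/-- The support functions of the chain. -/
noncomputable def hh (N : ℕ) (e : ℝ) (i : ℕ) (θ : Real.Angle) : ℝ :=
  hf (rr N i) (pp N e i) (qq N i) θ

theorem supportFunction_fam (N : ℕ) (e : ℝ) (i : Fin (N + 2)) (θ : Real.Angle) :
    supportFunction (fam N e i) θ = hh N e i θ := supportFunction_body _ _ _ _ _

theorem tangent_fam (N : ℕ) (e : ℝ) (i : Fin (N + 2)) (l : Real.Angle × ℝ) :
    IsSupportingTangent (fam N e i) l ↔ l.2 = hh N e i l.1 := isSupportingTangent_body _ _ _ _ _

theorem hh_zero (N : ℕ) (e : ℝ) (θ : Real.Angle) :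
    hh N e 0 θ = 10 + 1 / 2 + (θ.cos - gam) / 2 := by
  simp only [hh, hf, rr, pp, qq, if_true]
  ring

theorem hh_mid (N : ℕ) (e : ℝ) (i : ℕ) (h1 : 1 ≤ i) (h2 : i ≤ N) (θ : Real.Angle) :
    hh N e i θ = 10 + i + (-1) ^ i * amp * (2 * θ.cos ^ 2 - 1) := by
  have h0 : i ≠ 0 := by omega
  simp only [hh, hf, rr, pp, qq, if_neg h0, if_pos h2]
  ring

theorem hh_top (N : ℕ) (e : ℝ) (θ : Real.Angle) :
    hh N e (N + 1) θ = 10 + N + 1 / 2 - (e * θ.cos - gam) / 2 := by
  have h0 : N + 1 ≠ 0 := by omega
  have h2 : ¬ (N + 1 ≤ N) := by omega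
  simp only [hh, hf, rr, pp, qq, if_neg h0, if_neg h2]
  ring

theorem abs_cos_le (θ : Real.Angle) : |θ.cos| ≤ 1 := by
  have h1 := Real.Angle.cos_sq_add_sin_sq θ
  rw [abs_le]; constructor <;> nlinarith [sq_nonneg θ.sin]

theorem abs_cos2_le (θ : Real.Angle) : |2 * θ.cos ^ 2 - 1| ≤ 1 := by
  have h1 := Real.Angle.cos_sq_add_sin_sq θ
  rw [abs_le]; constructor <;> nlinarith [sq_nonneg θ.sin, sq_nonneg θ.cos]

theorem abs_mid_le (i : ℕ) (θ : Real.Angle) :
    |(-1 : ℝ) ^ i * amp * (2 * θ.cos ^ 2 - 1)| ≤ amp := by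
  rw [abs_mul, abs_mul, abs_pow, abs_neg, abs_one, one_pow, one_mul, abs_of_pos amp_pos]
  calc amp * |2 * θ.cos ^ 2 - 1| ≤ amp * 1 :=
        mul_le_mul_of_nonneg_left (abs_cos2_le θ) amp_pos.le
    _ = amp := mul_one _

theorem hh_le (N : ℕ) (e : ℝ) (i : ℕ) (h : i ≤ N) (θ : Real.Angle) :
    hh N e i θ ≤ 10 + i + amp := by
  rcases Nat.eq_zero_or_pos i with h0 | h0
  · subst h0
    rw [hh_zero]
    have := (abs_le.mp (abs_cos_le θ)).2
    have := gam_gt
    have := amp_gt
    push_cast
    linarith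
  · rw [hh_mid N e i h0 h]
    have := (abs_le.mp (abs_mid_le i θ)).2
    linarith

theorem le_hh (N : ℕ) (e : ℝ) (he : |e| = 1) (i : ℕ) (h1 : 1 ≤ i) (h : i ≤ N + 1)
    (θ : Real.Angle) : 10 + i - amp ≤ hh N e i θ := by
  rcases Nat.lt_or_ge N i with h0 | h0
  · have : i = N + 1 := by omega
    subst this
    rw [hh_top]
    have h2 : |e * θ.cos| ≤ 1 := by
      rw [abs_mul, he, one_mul]
      exact abs_cos_le θ
    have := (abs_le.mp h2).2
    have := gam_gt
    have := amp_gt
    push_cast
    linarith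
  · rw [hh_mid N e i h1 h0]
    have := (abs_le.mp (abs_mid_le i θ)).1
    linarith

theorem hh_lt (N : ℕ) (e : ℝ) (he : |e| = 1) (i j : ℕ) (hij : i + 2 ≤ j) (hj : j ≤ N + 1)
    (θ : Real.Angle) : hh N e i θ < hh N e j θ := by
  have h1 := hh_le N e i (by omega) θ
  have h2 := le_hh N e he j (by omega) hj θ
  have h3 := amp_lt
  have h4 : (i : ℝ) + 2 ≤ j := by exact_mod_cast hij
  linarith

theorem cross_mid (N : ℕ) (e : ℝ) (i : ℕ) (h1 : 1 ≤ i) (h2 : i + 1 ≤ N) (θ : Real.Angle) :
    hh N e i θ = hh N e (i + 1) θ ↔ 2 * θ.cos ^ 2 - 1 = (-1) ^ i * amp := by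
  rw [hh_mid N e i h1 (by omega), hh_mid N e (i + 1) (by omega) h2]
  have ha := amp_sq
  have hs : ((-1 : ℝ) ^ i) * (-1) ^ i = 1 := by
    rw [← mul_pow]; norm_num
  rw [pow_succ]
  push_cast
  constructor
  · intro h
    linear_combination (-(-1 : ℝ) ^ i * amp) * h * (-1) + (2 * θ.cos ^ 2 - 1) * (-1) * ha
      - 2 * amp ^ 2 * (2 * θ.cos ^ 2 - 1) * hs
  · intro h
    rw [h]
    linear_combination 2 * amp ^ 2 * hs + ha

theorem cross_bot (N : ℕ) (e : ℝ) (hN : 1 ≤ N) (θ : Real.Angle) :
    hh N e 0 θ = hh N e 1 θ ↔ θ.cos = gam := by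
  rw [hh_zero, hh_mid N e 1 le_rfl hN]
  have ha := amp_sq
  have hg := gam_sq
  have h1 := (abs_le.mp (abs_cos_le θ)).1
  have h2 := gam_gt
  have h3 := amp_lt
  have h4 := amp_gt
  have key : (10 + 1 / 2 + (θ.cos - gam) / 2)
      - (10 + ((1 : ℕ) : ℝ) + (-1) ^ 1 * amp * (2 * θ.cos ^ 2 - 1))
      = (θ.cos - gam) * (2 * amp * (θ.cos + gam) + 1 / 2) := by
    push_cast
    linear_combination amp * hg + (1 / 2) * ha
  have hpos : 0 < 2 * amp * (θ.cos + gam) + 1 / 2 := by nlinarith
  constructor
  · intro h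
    have : (θ.cos - gam) * (2 * amp * (θ.cos + gam) + 1 / 2) = 0 := by rw [← key, h]; ring
    rcases mul_eq_zero.mp this with h5 | h5
    · linarith
    · exact absurd h5 hpos.ne'
  · intro h
    have : (θ.cos - gam) * (2 * amp * (θ.cos + gam) + 1 / 2) = 0 := by rw [h]; ring
    rw [← key] at this
    linarith

theorem cross_top (N : ℕ) (e : ℝ) (he : |e| = 1) (hN : 1 ≤ N) (hN2 : Even N) (θ : Real.Angle) :
    hh N e N θ = hh N e (N + 1) θ ↔ e * θ.cos = gam := by
  rw [hh_top, hh_mid N e N hN le_rfl, hN2.neg_one_pow]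
  have ha := amp_sq
  have hg := gam_sq
  have hee : e ^ 2 = 1 := by rw [← sq_abs, he]; norm_num
  have h0 : |e * θ.cos| ≤ 1 := by
    rw [abs_mul, he, one_mul]
    exact abs_cos_le θ
  have h1 := (abs_le.mp h0).1
  have h2 := gam_gt
  have h3 := amp_lt
  have h4 := amp_gt
  have key : (10 + (N : ℝ) + 1 * amp * (2 * θ.cos ^ 2 - 1))
      - (10 + N + 1 / 2 - (e * θ.cos - gam) / 2)
      = (e * θ.cos - gam) * (2 * amp * (e * θ.cos + gam) + 1 / 2) := by
    linear_combination amp * hg + (1 / 2) * ha - 2 * amp * θ.cos ^ 2 * hee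
  have hpos : 0 < 2 * amp * (e * θ.cos + gam) + 1 / 2 := by nlinarith
  constructor
  · intro h
    have : (e * θ.cos - gam) * (2 * amp * (e * θ.cos + gam) + 1 / 2) = 0 := by
      rw [← key, h]; ring
    rcases mul_eq_zero.mp this with h5 | h5
    · linarith
    · exact absurd h5 hpos.ne'
  · intro h
    have : (e * θ.cos - gam) * (2 * amp * (e * θ.cos + gam) + 1 / 2) = 0 := by rw [h]; ring
    rw [← key] at this
    linarith

/-! ## The chains are arrangements, with at most four common tangents for each pair -/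

theorem commonTangents_comm (A B : ConvexBody Plane) :
    commonTangents A B = commonTangents B A := by
  ext l
  simp only [commonTangents, Set.mem_ofPred_eq]
  exact and_comm

theorem mem_commonTangents_fam (N : ℕ) (e : ℝ) (i j : Fin (N + 2)) (l : Real.Angle × ℝ) :
    l ∈ commonTangents (fam N e i) (fam N e j) ↔ l.2 = hh N e i l.1 ∧ l.2 = hh N e j l.1 := by
  simp only [commonTangents, Set.mem_ofPred_eq, tangent_fam]

theorem far_empty (N : ℕ) (e : ℝ) (he : |e| = 1) (i j : Fin (N + 2)) (hij : (i : ℕ) + 2 ≤ j)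
    (l : Real.Angle × ℝ) : l ∉ commonTangents (fam N e i) (fam N e j) := by
  rw [mem_commonTangents_fam]
  rintro ⟨h1, h2⟩
  have := hh_lt N e he i j hij (by omega) l.1
  rw [← h1, ← h2] at this
  exact lt_irrefl _ this

theorem near_of_mem (N : ℕ) (e : ℝ) (he : |e| = 1) (i j : Fin (N + 2)) (hij : i ≠ j)
    (l : Real.Angle × ℝ) (h : l ∈ commonTangents (fam N e i) (fam N e j)) :
    (j : ℕ) = i + 1 ∨ (i : ℕ) = j + 1 := by
  by_contra hcon
  have hne : (i : ℕ) ≠ j := fun h => hij (Fin.ext h)
  rcases Nat.lt_or_ge (i : ℕ) j with h1 | h1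
  · exact far_empty N e he i j (by omega) l h
  · rw [commonTangents_comm] at h
    exact far_empty N e he j i (by omega) l h

theorem sin_ne_zero_of_cos2 (θ : Real.Angle) (h : (2 * θ.cos ^ 2 - 1) ^ 2 = 1 / 2) :
    θ.sin ≠ 0 ∧ θ.cos ≠ 0 := by
  have h1 := Real.Angle.cos_sq_add_sin_sq θ
  constructor
  · intro h0
    rw [h0] at h1
    have : θ.cos ^ 2 = 1 := by linarith
    rw [this] at h
    norm_num at h
  · intro h0
    rw [h0] at h
    norm_num at h

theorem transversal_succ (N : ℕ) (e : ℝ) (he : |e| = 1) (hN : 1 ≤ N) (hN2 : Even N)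
    (i j : Fin (N + 2)) (hij : (j : ℕ) = i + 1) (l : Real.Angle × ℝ)
    (h : l ∈ commonTangents (fam N e i) (fam N e j)) :
    (fam N e i : Set Plane) ∩ (fam N e j : Set Plane) ∩ lineOf l = ∅ := by
  rw [mem_commonTangents_fam] at h
  obtain ⟨h1, h2⟩ := h
  have hee : e ^ 2 = 1 := by rw [← sq_abs, he]; norm_num
  have ha := amp_sq
  have hg := gam_sq
  have hap := amp_pos
  have hgp := gam_pos
  have hg1 := gam_lt
  have hsc := Real.Angle.cos_sq_add_sin_sq l.1
  refine disjoint_of_transversal _ _ _ _ _ _ l h1 h2 ?_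
  have heq : hh N e i l.1 = hh N e ((i : ℕ) + 1) l.1 := by rw [← hij, ← h1, ← h2]
  rw [hij]
  rcases Nat.eq_zero_or_pos (i : ℕ) with h0 | h0
  · rw [h0] at heq ⊢
    rw [zero_add] at heq ⊢
    rw [cross_bot N e hN] at heq
    have h10 : (1 : ℕ) ≠ 0 := one_ne_zero
    simp only [pp, qq, if_true, if_neg h10, if_pos hN]
    rw [heq] at hsc ⊢
    apply mul_ne_zero
    · intro hs
      rw [hs] at hsc
      nlinarith
    · have : 0 < amp * gam := mul_pos hap hgp
      intro hcon
      linarith
  · rcases Nat.lt_or_ge (i : ℕ) N with h3 | h3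
    · rw [cross_mid N e i h0 (by omega)] at heq
      have hi0 : (i : ℕ) ≠ 0 := by omega
      have hi1 : (i : ℕ) ≤ N := by omega
      have hi2 : (i : ℕ) + 1 ≠ 0 := by omega
      have hi3 : (i : ℕ) + 1 ≤ N := by omega
      simp only [pp, qq, if_neg hi0, if_pos hi1, if_neg hi2, if_pos hi3]
      have hs : ((-1 : ℝ) ^ (i : ℕ)) ^ 2 = 1 := by
        rw [← pow_mul, mul_comm, pow_mul]; norm_num
      have hsq : (2 * l.1.cos ^ 2 - 1) ^ 2 = 1 / 2 := by
        rw [heq, mul_pow, hs]
        linarith
      obtain ⟨k1, k2⟩ := sin_ne_zero_of_cos2 l.1 hsq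
      have hne : ((-1 : ℝ) ^ (i : ℕ)) ≠ 0 := pow_ne_zero _ (by norm_num)
      have : (0 : ℝ) - 0 + 4 * ((-1) ^ (i : ℕ) * amp - (-1) ^ ((i : ℕ) + 1) * amp) * l.1.cos
          = 8 * ((-1) ^ (i : ℕ) * amp * l.1.cos) := by
        rw [pow_succ]; ring
      rw [this]
      exact mul_ne_zero k1 (mul_ne_zero (by norm_num) (mul_ne_zero (mul_ne_zero hne hap.ne') k2))
    · have hiN : (i : ℕ) = N := by have := j.2; omega
      rw [hiN] at heq ⊢
      rw [cross_top N e he hN hN2] at heq
      have hi0 : N ≠ 0 := by omega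
      have hi2 : N + 1 ≠ 0 := by omega
      have hi3 : ¬ (N + 1 ≤ N) := by omega
      simp only [pp, qq, if_neg hi0, le_refl, if_true, if_neg hi2, if_neg hi3, hN2.neg_one_pow]
      apply mul_ne_zero
      · intro hs
        have h5 : gam ^ 2 = 1 := by
          rw [← heq, mul_pow, hee, one_mul]
          rw [hs] at hsc
          linarith
        nlinarith
      · intro hcon
        have h6 : e * (0 - -(e / 2) + 4 * (1 * amp - 0) * l.1.cos) = 0 := by rw [hcon, mul_zero]
        have h7 : e * (0 - -(e / 2) + 4 * (1 * amp - 0) * l.1.cos)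
            = 1 / 2 + 4 * (amp * gam) := by
          rw [← heq]
          linear_combination (1 / 2) * hee
        have : 0 < amp * gam := mul_pos hap hgp
        rw [h7] at h6
        linarith

/-- Four angles. -/
noncomputable def fourAngles (s : ℝ) : Finset Real.Angle := by
  classical
  exact {(s : Real.Angle), -(s : Real.Angle), ((Real.pi - s : ℝ) : Real.Angle),
    -((Real.pi - s : ℝ) : Real.Angle)}

theorem mem_fourAngles (s : ℝ) (θ : Real.Angle) (h : θ.cos ^ 2 = Real.cos s ^ 2) :
    θ ∈ fourAngles s := by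
  classical
  have h1 : (θ.cos - Real.cos s) * (θ.cos + Real.cos s) = 0 := by linear_combination h
  rcases mul_eq_zero.mp h1 with h2 | h2
  · have h3 : θ.cos = (s : Real.Angle).cos := by rw [Real.Angle.cos_coe]; linarith
    rcases Real.Angle.cos_eq_iff_eq_or_eq_neg.mp h3 with h4 | h4
    · rw [h4]; simp [fourAngles]
    · rw [h4]; simp [fourAngles]
  · have h3 : θ.cos = ((Real.pi - s : ℝ) : Real.Angle).cos := by
      rw [Real.Angle.cos_coe, Real.cos_pi_sub]; linarith
    rcases Real.Angle.cos_eq_iff_eq_or_eq_neg.mp h3 with h4 | h4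
    · rw [h4]; unfold fourAngles; simp
    · rw [h4]; unfold fourAngles; simp

theorem card_fourAngles (s : ℝ) : (fourAngles s).card ≤ 4 := by
  classical
  unfold fourAngles
  exact Finset.card_le_four

/-- The angle at which consecutive members of the chain meet. -/
noncomputable def meet (N i : ℕ) : ℝ :=
  if i = 0 then Real.pi / 8 else if i < N then (if Even i then Real.pi / 8 else 3 * Real.pi / 8)
    else Real.pi / 8

theorem cos_meet (i : ℕ) :
    2 * Real.cos (if Even i then Real.pi / 8 else 3 * Real.pi / 8) ^ 2 - 1 = (-1) ^ i * amp := by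
  rw [← Real.cos_two_mul]
  split_ifs with h
  · rw [h.neg_one_pow, one_mul]
    unfold amp
    congr 1
    ring
  · rw [Nat.not_even_iff_odd] at h
    rw [h.neg_one_pow]
    unfold amp
    rw [show 2 * (3 * Real.pi / 8) = Real.pi - Real.pi / 4 by ring, Real.cos_pi_sub]
    ring

theorem tangents_succ (N : ℕ) (e : ℝ) (he : |e| = 1) (hN : 1 ≤ N) (hN2 : Even N)
    (i j : Fin (N + 2)) (hij : (j : ℕ) = i + 1) (l : Real.Angle × ℝ)
    (h : l ∈ commonTangents (fam N e i) (fam N e j)) :
    l ∈ (fun θ : Real.Angle => (θ, hh N e i θ)) '' (fourAngles (meet N i) : Set Real.Angle) := by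
  rw [mem_commonTangents_fam] at h
  obtain ⟨h1, h2⟩ := h
  have hee : e ^ 2 = 1 := by rw [← sq_abs, he]; norm_num
  have heq : hh N e i l.1 = hh N e ((i : ℕ) + 1) l.1 := by rw [← hij, ← h1, ← h2]
  refine ⟨l.1, ?_, Prod.ext rfl h1.symm⟩
  rw [Finset.mem_coe]
  apply mem_fourAngles
  rcases Nat.eq_zero_or_pos (i : ℕ) with h0 | h0
  · rw [h0] at heq
    rw [zero_add, cross_bot N e hN] at heq
    rw [heq, h0, meet, if_pos rfl, gam]
  · rcases Nat.lt_or_ge (i : ℕ) N with h3 | h3
    · rw [cross_mid N e i h0 (by omega)] at heq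
      have := cos_meet i
      rw [meet, if_neg (by omega), if_pos h3]
      linarith
    · have hiN : (i : ℕ) = N := by have := j.2; omega
      rw [hiN] at heq ⊢
      rw [cross_top N e he hN hN2] at heq
      rw [meet, if_neg (by omega), if_neg (lt_irrefl _)]
      have : Real.cos (Real.pi / 8) = gam := rfl
      rw [this, ← heq, mul_pow, hee, one_mul]

theorem subset_image (N : ℕ) (e : ℝ) (he : |e| = 1) (hN : 1 ≤ N) (hN2 : Even N)
    (i j : Fin (N + 2)) (hij : i ≠ j) :
    ∃ F : Set (Real.Angle × ℝ), F.Finite ∧ F.ncard ≤ 4 ∧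
      commonTangents (fam N e i) (fam N e j) ⊆ F := by
  by_cases h1 : (j : ℕ) = i + 1
  · refine ⟨(fun θ : Real.Angle => (θ, hh N e i θ)) '' (fourAngles (meet N i) : Set Real.Angle),
      (Finset.finite_toSet _).image _, ?_, fun l hl => tangents_succ N e he hN hN2 i j h1 l hl⟩
    calc _ ≤ (fourAngles (meet N i) : Set Real.Angle).ncard :=
          Set.ncard_image_le (Finset.finite_toSet _)
      _ = (fourAngles (meet N i)).card := Set.ncard_coe_finset _
      _ ≤ 4 := card_fourAngles _
  · by_cases h2 : (i : ℕ) = j + 1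
    · refine ⟨(fun θ : Real.Angle => (θ, hh N e j θ)) '' (fourAngles (meet N j) : Set Real.Angle),
        (Finset.finite_toSet _).image _, ?_, fun l hl => ?_⟩
      · calc _ ≤ (fourAngles (meet N j) : Set Real.Angle).ncard :=
              Set.ncard_image_le (Finset.finite_toSet _)
          _ = (fourAngles (meet N j)).card := Set.ncard_coe_finset _
          _ ≤ 4 := card_fourAngles _
      · rw [commonTangents_comm] at hl
        exact tangents_succ N e he hN hN2 j i h2 l hl
    · refine ⟨∅, Set.finite_empty, by simp, fun l hl => ?_⟩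
      rcases near_of_mem N e he i j hij l hl with h | h
      · exact absurd h h1
      · exact absurd h h2

theorem ncard_commonTangents (N : ℕ) (e : ℝ) (he : |e| = 1) (hN : 1 ≤ N) (hN2 : Even N)
    (i j : Fin (N + 2)) (hij : i ≠ j) :
    (commonTangents (fam N e i) (fam N e j)).ncard ≤ 4 := by
  obtain ⟨F, hF, hF4, hsub⟩ := subset_image N e he hN hN2 i j hij
  exact (Set.ncard_le_ncard hsub hF).trans hF4

theorem isArrangement_fam (N : ℕ) (e : ℝ) (he : |e| = 1) (hN : 1 ≤ N) (hN2 : Even N) :
    IsArrangement (fam N e) where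
  transversal := by
    intro i j hij l hl
    rcases near_of_mem N e he i j hij l hl with h | h
    · exact transversal_succ N e he hN hN2 i j h l hl
    · rw [commonTangents_comm] at hl
      rw [Set.inter_comm (fam N e i : Set Plane)]
      exact transversal_succ N e he hN hN2 j i h l hl
  no_three := by
    rintro i j k hij hik hjk l ⟨h1, h2, h3⟩
    have n1 := near_of_mem N e he i j hij l ⟨h1, h2⟩
    have n2 := near_of_mem N e he i k hik l ⟨h1, h3⟩
    have n3 := near_of_mem N e he j k hjk l ⟨h2, h3⟩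
    have : (i : ℕ) ≠ j := fun h => hij (Fin.ext h)
    have : (i : ℕ) ≠ k := fun h => hik (Fin.ext h)
    have : (j : ℕ) ≠ k := fun h => hjk (Fin.ext h)
    omega
  finite := by
    have : {l | ∃ i j, i ≠ j ∧ l ∈ commonTangents (fam N e i) (fam N e j)}
        ⊆ ⋃ i : Fin (N + 2), ⋃ j : Fin (N + 2),
          {l | i ≠ j ∧ l ∈ commonTangents (fam N e i) (fam N e j)} := by
      rintro l ⟨i, j, hij, hl⟩
      simp only [Set.mem_iUnion]
      exact ⟨i, j, hij, hl⟩
    refine Set.Finite.subset (Set.finite_iUnion fun i => Set.finite_iUnion fun j => ?_) this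
    by_cases hij : i = j
    · convert Set.finite_empty using 1
      ext l
      simp [hij]
    · obtain ⟨F, hF, -, hsub⟩ := subset_image N e he hN hN2 i j hij
      exact hF.subset fun l hl => hsub hl.2

/-! ## Removing one body makes the two chains equivalent -/

/-- The amount of twisting at height `y`. -/
noncomputable def twist (lo hi y : ℝ) : ℝ := Real.pi * max 0 (min 1 ((y - lo) / (hi - lo)))

theorem continuous_twist (lo hi : ℝ) : Continuous (twist lo hi) := by
  unfold twist
  fun_prop

theorem twist_of_le (lo hi y : ℝ) (h : lo < hi) (hy : y ≤ lo) : twist lo hi y = 0 := by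
  unfold twist
  have : (y - lo) / (hi - lo) ≤ 0 := div_nonpos_of_nonpos_of_nonneg (by linarith) (by linarith)
  rw [max_eq_left ((min_le_right _ _).trans this), mul_zero]

theorem twist_of_ge (lo hi y : ℝ) (h : lo < hi) (hy : hi ≤ y) : twist lo hi y = Real.pi := by
  unfold twist
  have : 1 ≤ (y - lo) / (hi - lo) := by
    rw [one_le_div (by linarith)]
    linarith
  rw [min_eq_left this, max_eq_right zero_le_one, mul_one]

/-- The twist homeomorphism of the cylinder. -/
noncomputable def twistHomeo (lo hi : ℝ) : (Real.Angle × ℝ) ≃ₜ (Real.Angle × ℝ) where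
  toFun p := (p.1 + (twist lo hi p.2 : Real.Angle), p.2)
  invFun p := (p.1 - (twist lo hi p.2 : Real.Angle), p.2)
  left_inv p := by simp
  right_inv p := by simp
  continuous_toFun := by
    have := continuous_twist lo hi
    have h2 := Real.Angle.continuous_coe
    fun_prop
  continuous_invFun := by
    have := continuous_twist lo hi
    have h2 := Real.Angle.continuous_coe
    fun_prop

theorem twistHomeo_apply (lo hi : ℝ) (p : Real.Angle × ℝ) :
    twistHomeo lo hi p = (p.1 + (twist lo hi p.2 : Real.Angle), p.2) := rfl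

theorem twistHomeo_symm_apply (lo hi : ℝ) (p : Real.Angle × ℝ) :
    (twistHomeo lo hi).symm p = (p.1 - (twist lo hi p.2 : Real.Angle), p.2) := rfl

theorem preservesTop_twist (lo hi : ℝ) : PreservesTop (twistHomeo lo hi) :=
  ⟨1, fun y hy θ => by rw [twistHomeo_apply]; simp only; linarith⟩

theorem preservesDirection_twist (lo hi : ℝ) : PreservesDirection (twistHomeo lo hi) := by
  refine ⟨fun p => (p.1 + twist lo hi p.2, p.2), ?_, fun p => ?_, fun x y => ?_⟩
  · have := continuous_twist lo hi
    fun_prop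
  · simp [toCylinder, twistHomeo_apply]
  · simp only [Prod.mk_add_mk, add_zero]
    congr 1
    ring

theorem hh_below (N : ℕ) (i : ℕ) (h : i ≤ N) (e : ℝ) (θ : Real.Angle) :
    hh N e i θ = hh N 1 i θ := by
  rcases Nat.eq_zero_or_pos i with h0 | h0
  · subst h0
    rw [hh_zero, hh_zero]
  · rw [hh_mid N e i h0 h, hh_mid N 1 i h0 h]

theorem hh_rotate (N : ℕ) (i : ℕ) (h1 : 1 ≤ i) (h : i ≤ N + 1) (θ : Real.Angle) :
    hh N (-1) i (θ + (Real.pi : Real.Angle)) = hh N 1 i θ := by
  rcases Nat.lt_or_ge N i with h0 | h0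
  · have : i = N + 1 := by omega
    subst this
    rw [hh_top, hh_top, Real.Angle.cos_add_pi]
    ring
  · rw [hh_mid N _ i h1 h0, hh_mid N 1 i h1 h0, Real.Angle.cos_add_pi, neg_sq]

theorem image_curve (lo hi : ℝ) (h k : Real.Angle → ℝ)
    (hk : ∀ θ : Real.Angle, k (θ + (twist lo hi (h θ) : Real.Angle)) = h θ)
    (hk' : ∀ θ : Real.Angle, h (θ - (twist lo hi (k θ) : Real.Angle)) = k θ) :
    twistHomeo lo hi '' {p | p.2 = h p.1} = {p | p.2 = k p.1} := by
  ext p
  constructor
  · rintro ⟨q, hq, rfl⟩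
    simp only [Set.mem_ofPred_eq] at hq
    rw [twistHomeo_apply]
    simp only [Set.mem_ofPred_eq]
    rw [hq, hk]
  · intro hp
    simp only [Set.mem_ofPred_eq] at hp
    refine ⟨(twistHomeo lo hi).symm p, ?_, (twistHomeo lo hi).apply_symm_apply p⟩
    rw [twistHomeo_symm_apply]
    simp only [Set.mem_ofPred_eq]
    rw [hp, hk']

theorem sameType_local (N : ℕ) (S : Set (Fin (N + 2))) (j : Fin (N + 2)) (hj : j ∉ S) :
    SameType (fun i : S => fam N 1 i) (fun i : S => fam N (-1) i) := by
  have ha := amp_lt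
  have hlo : (10 + (j : ℕ) - 1 + amp : ℝ) < 10 + (j : ℕ) + 1 - amp := by linarith
  have e1 : |(1 : ℝ)| = 1 := abs_one
  have e2 : |(-1 : ℝ)| = 1 := by norm_num
  refine ⟨twistHomeo (10 + (j : ℕ) - 1 + amp) (10 + (j : ℕ) + 1 - amp),
    preservesTop_twist _ _, preservesDirection_twist _ _, ?_⟩
  rintro ⟨i, hi⟩
  have hij : (i : ℕ) ≠ j := fun h => hj (Fin.ext h ▸ hi)
  have c1 : supportCurve (fam N 1 i) = {p | p.2 = hh N 1 i p.1} := by
    unfold supportCurve
    ext p
    simp only [Set.mem_ofPred_eq, supportFunction_fam]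
  have c2 : supportCurve (fam N (-1) i) = {p | p.2 = hh N (-1) i p.1} := by
    unfold supportCurve
    ext p
    simp only [Set.mem_ofPred_eq, supportFunction_fam]
  simp only
  rw [c1, c2]
  rcases Nat.lt_or_ge (i : ℕ) j with h | h
  · have hb : ∀ (e : ℝ) (θ : Real.Angle), twist (10 + (j : ℕ) - 1 + amp) (10 + (j : ℕ) + 1 - amp)
        (hh N e i θ) = 0 := by
      intro e θ
      apply twist_of_le _ _ _ hlo
      have h1 := hh_le N e i (by omega) θ
      have h2 : ((i : ℕ) : ℝ) + 1 ≤ (j : ℕ) := by exact_mod_cast h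
      linarith
    apply image_curve
    · intro θ
      rw [hb, Real.Angle.coe_zero, add_zero]
      exact hh_below N i (by omega) _ θ
    · intro θ
      rw [hb, Real.Angle.coe_zero, sub_zero]
      exact (hh_below N i (by omega) _ θ).symm
  · have hb : ∀ (e : ℝ), |e| = 1 → ∀ (θ : Real.Angle),
        twist (10 + (j : ℕ) - 1 + amp) (10 + (j : ℕ) + 1 - amp) (hh N e i θ) = Real.pi := by
      intro e he θ
      apply twist_of_ge _ _ _ hlo
      have h1 := le_hh N e he i (by omega) (by omega) θ
      have h2 : ((j : ℕ) : ℝ) + 1 ≤ (i : ℕ) := by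
        have : (j : ℕ) + 1 ≤ i := by omega
        exact_mod_cast this
      linarith
    apply image_curve
    · intro θ
      rw [hb 1 e1]
      exact hh_rotate N i (by omega) (by omega) θ
    · intro θ
      rw [hb (-1) e2]
      have := hh_rotate N i (by omega) (by omega) (θ - (Real.pi : Real.Angle))
      rw [sub_add_cancel] at this
      exact this.symm

/-! ## The two chains are not equivalent -/

/-- The residues modulo `8` of the multiples of `π / 8` at which the bodies `i` and `i + 1` of the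
middle part of the chain meet. -/
def cls (i : ℕ) (n : ℤ) : Prop :=
  if Even i then n % 8 = 1 ∨ n % 8 = 7 else n % 8 = 3 ∨ n % 8 = 5

theorem cos_eq_int (x s : ℝ) (h : Real.cos x = Real.cos s) :
    ∃ k : ℤ, x = 2 * k * Real.pi + s ∨ x = 2 * k * Real.pi - s :=
  Real.cos_eq_cos_iff.mp h.symm

theorem cross_mid_int (N : ℕ) (e : ℝ) (i : ℕ) (h1 : 1 ≤ i) (h2 : i + 1 ≤ N) (x : ℝ) :
    hh N e i (x : Real.Angle) = hh N e (i + 1) (x : Real.Angle) ↔
      ∃ n : ℤ, x = n * (Real.pi / 8) ∧ cls i n := by
  rw [cross_mid N e i h1 h2, Real.Angle.cos_coe, ← Real.cos_two_mul]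
  unfold cls
  split_ifs with hi
  · rw [hi.neg_one_pow, one_mul]
    constructor
    · intro h
      obtain ⟨k, hk | hk⟩ := cos_eq_int _ _ h
      · exact ⟨8 * k + 1, by push_cast; linarith, by omega⟩
      · exact ⟨8 * k - 1, by push_cast; linarith, by omega⟩
    · rintro ⟨n, rfl, hn⟩
      unfold amp
      rcases hn with hn | hn
      · obtain ⟨k, hk⟩ : ∃ k : ℤ, n = 8 * k + 1 := ⟨n / 8, by omega⟩
        rw [hk, Real.cos_eq_cos_iff]
        exact ⟨-k, Or.inl (by push_cast; ring)⟩
      · obtain ⟨k, hk⟩ : ∃ k : ℤ, n = 8 * k - 1 := ⟨n / 8 + 1, by omega⟩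
        rw [hk, Real.cos_eq_cos_iff]
        exact ⟨k, Or.inr (by push_cast; ring)⟩
  · rw [Nat.not_even_iff_odd] at hi
    have hamp : (-1 : ℝ) ^ i * amp = Real.cos (3 * Real.pi / 4) := by
      rw [hi.neg_one_pow, show 3 * Real.pi / 4 = Real.pi - Real.pi / 4 by ring, Real.cos_pi_sub]
      unfold amp
      ring
    rw [hamp]
    constructor
    · intro h
      obtain ⟨k, hk | hk⟩ := cos_eq_int _ _ h
      · exact ⟨8 * k + 3, by push_cast; linarith, by omega⟩
      · exact ⟨8 * k - 3, by push_cast; linarith, by omega⟩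
    · rintro ⟨n, rfl, hn⟩
      rcases hn with hn | hn
      · obtain ⟨k, hk⟩ : ∃ k : ℤ, n = 8 * k + 3 := ⟨n / 8, by omega⟩
        rw [hk, Real.cos_eq_cos_iff]
        exact ⟨-k, Or.inl (by push_cast; ring)⟩
      · obtain ⟨k, hk⟩ : ∃ k : ℤ, n = 8 * k - 3 := ⟨n / 8 + 1, by omega⟩
        rw [hk, Real.cos_eq_cos_iff]
        exact ⟨k, Or.inr (by push_cast; ring)⟩

theorem cross_bot_int (N : ℕ) (e : ℝ) (hN : 1 ≤ N) (x : ℝ) :
    hh N e 0 (x : Real.Angle) = hh N e 1 (x : Real.Angle) ↔
      ∃ n : ℤ, x = n * (Real.pi / 8) ∧ (n % 16 = 1 ∨ n % 16 = 15) := by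
  rw [cross_bot N e hN, Real.Angle.cos_coe]
  constructor
  · intro h
    obtain ⟨k, hk | hk⟩ := cos_eq_int _ _ h
    · exact ⟨16 * k + 1, by push_cast; linarith, by omega⟩
    · exact ⟨16 * k - 1, by push_cast; linarith, by omega⟩
  · rintro ⟨n, rfl, hn⟩
    unfold gam
    rcases hn with hn | hn
    · obtain ⟨k, hk⟩ : ∃ k : ℤ, n = 16 * k + 1 := ⟨n / 16, by omega⟩
      rw [hk, Real.cos_eq_cos_iff]
      exact ⟨-k, Or.inl (by push_cast; ring)⟩
    · obtain ⟨k, hk⟩ : ∃ k : ℤ, n = 16 * k - 1 := ⟨n / 16 + 1, by omega⟩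
      rw [hk, Real.cos_eq_cos_iff]
      exact ⟨k, Or.inr (by push_cast; ring)⟩

theorem cross_topA (N : ℕ) (hN : 1 ≤ N) (hN2 : Even N) :
    hh N 1 N ((Real.pi / 8 : ℝ) : Real.Angle) = hh N 1 (N + 1) ((Real.pi / 8 : ℝ) : Real.Angle) := by
  rw [cross_top N 1 abs_one hN hN2, Real.Angle.cos_coe, one_mul]
  rfl

theorem cross_topB (N : ℕ) (hN : 1 ≤ N) (hN2 : Even N) (x : ℝ)
    (h : hh N (-1) N (x : Real.Angle) = hh N (-1) (N + 1) (x : Real.Angle)) :
    ∃ n : ℤ, x = n * (Real.pi / 8) ∧ (n % 16 = 7 ∨ n % 16 = 9) := by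
  rw [cross_top N (-1) (by norm_num) hN hN2, Real.Angle.cos_coe] at h
  have h2 : Real.cos x = Real.cos (Real.pi - Real.pi / 8) := by
    rw [Real.cos_pi_sub]
    unfold gam at h
    linarith
  obtain ⟨k, hk | hk⟩ := cos_eq_int _ _ h2
  · exact ⟨16 * k + 7, by push_cast; linarith, by omega⟩
  · exact ⟨16 * k - 7, by push_cast; linarith, by omega⟩

theorem continuous_hf (r p q : ℝ) : Continuous fun x : ℝ => hf r p q (x : Real.Angle) := by
  unfold hf
  simp only [Real.Angle.cos_coe]
  fun_prop

theorem unit_lt {m n : ℤ} (h : (m : ℝ) * (Real.pi / 8) < n * (Real.pi / 8)) : m < n := by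
  have hp : 0 < Real.pi / 8 := by positivity
  have := lt_of_mul_lt_mul_right h hp.le
  exact_mod_cast this

theorem unit_lt' {m n : ℤ} (h : m < n) : (m : ℝ) * (Real.pi / 8) < n * (Real.pi / 8) := by
  have hp : 0 < Real.pi / 8 := by positivity
  have : (m : ℝ) < n := by exact_mod_cast h
  exact mul_lt_mul_of_pos_right this hp

theorem not_sameType (N : ℕ) (hN : 1 ≤ N) (hN2 : Even N) : ¬ SameType (fam N 1) (fam N (-1)) := by
  rintro ⟨φ, -, ⟨Φ, hΦc, hΦ, hΦp⟩, hφ⟩
  -- the induced maps of the real line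
  set σ : ℕ → ℝ → ℝ := fun i x => (Φ (x, hh N 1 i (x : Real.Angle))).1 with hσ
  have c1 : ∀ (e : ℝ) (i : Fin (N + 2)), supportCurve (fam N e i) = {p | p.2 = hh N e i p.1} := by
    intro e i
    unfold supportCurve
    ext p
    simp only [Set.mem_ofPred_eq, supportFunction_fam]
  have L1 : ∀ i ≤ N + 1, ∀ x : ℝ, φ ((x : Real.Angle), hh N 1 i (x : Real.Angle))
      = ((σ i x : Real.Angle), hh N (-1) i (σ i x : Real.Angle)) := by
    intro i hi x
    have h1 := hΦ (x, hh N 1 i (x : Real.Angle))
    have h2 : φ ((x : Real.Angle), hh N 1 i (x : Real.Angle)) ∈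
        supportCurve (fam N (-1) ⟨i, by omega⟩) := by
      rw [← hφ ⟨i, by omega⟩]
      refine ⟨_, ?_, rfl⟩
      rw [c1]
      simp
    rw [c1] at h2
    simp only [Set.mem_ofPred_eq] at h2
    have h3 : toCylinder (x, hh N 1 i (x : Real.Angle))
        = ((x : Real.Angle), hh N 1 i (x : Real.Angle)) := rfl
    rw [h3] at h1
    have h4 : (φ ((x : Real.Angle), hh N 1 i (x : Real.Angle))).1 = (σ i x : Real.Angle) := by
      rw [← h1]; rfl
    refine Prod.ext h4 ?_
    rw [h2, h4]
  have L2 : ∀ i x, σ i (x + 2 * Real.pi) = σ i x + 2 * Real.pi := by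
    intro i x
    simp only [hσ]
    have : ((x + 2 * Real.pi : ℝ) : Real.Angle) = (x : Real.Angle) := by
      rw [Real.Angle.coe_add, Real.Angle.coe_two_pi, add_zero]
    rw [this, hΦp]
    rfl
  have L2' : ∀ i x (n : ℕ), σ i (x + 2 * Real.pi * n) = σ i x + 2 * Real.pi * n := by
    intro i x n
    induction n with
    | zero => simp
    | succ n ih =>
      push_cast
      rw [show x + 2 * Real.pi * ((n : ℝ) + 1) = (x + 2 * Real.pi * n) + 2 * Real.pi by ring, L2,
        ih]
      ring
  have L3 : ∀ i ≤ N + 1, Function.Injective (σ i) := by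
    intro i hi x y hxy
    have h1 := L1 i hi x
    have h2 := L1 i hi y
    rw [hxy, ← h2] at h1
    have h3 := φ.injective h1
    have h4 : (x : Real.Angle) = (y : Real.Angle) := congrArg Prod.fst h3
    obtain ⟨n, hn⟩ := Real.Angle.angle_eq_iff_two_pi_dvd_sub.mp h4
    obtain ⟨m, rfl | rfl⟩ := n.eq_nat_or_neg
    · have h5 : x = y + 2 * Real.pi * m := by push_cast at hn; linarith
      rw [h5, L2'] at hxy
      rw [h5]
      linarith
    · have h5 : y = x + 2 * Real.pi * m := by push_cast at hn; linarith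
      rw [h5, L2'] at hxy
      rw [h5]
      linarith
  have L4 : ∀ i ≤ N + 1, StrictMono (σ i) := by
    intro i hi
    have hc : Continuous (σ i) := by
      have := continuous_hf (rr N i) (pp N 1 i) (qq N i)
      have h2 : Continuous fun x : ℝ => hh N 1 i (x : Real.Angle) := this
      simp only [hσ]
      fun_prop
    rcases hc.strictMono_of_inj (L3 i hi) with h | h
    · exact h
    · exfalso
      have h1 := h (show (0 : ℝ) < 0 + 2 * Real.pi by linarith [Real.pi_pos])
      rw [L2] at h1
      linarith [Real.pi_pos]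
  have L5 : ∀ i ≤ N, ∀ x : ℝ, hh N 1 i (x : Real.Angle) = hh N 1 (i + 1) (x : Real.Angle) →
      σ (i + 1) x = σ i x ∧
      hh N (-1) i (σ i x : Real.Angle) = hh N (-1) (i + 1) (σ i x : Real.Angle) := by
    intro i hi x hx
    have h0 : σ (i + 1) x = σ i x := by simp only [hσ]; rw [hx]
    refine ⟨h0, ?_⟩
    have h1 := L1 i (by omega) x
    have h2 := L1 (i + 1) (by omega) x
    rw [← hx, h1, h0] at h2
    exact congrArg Prod.snd h2
  -- values of the induced maps at multiples of `π / 8`
  set u : ℝ := Real.pi / 8 with hu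
  have h16 : ∀ (i : ℕ) (n : ℤ), σ i ((n + 16 : ℤ) * u) = σ i (n * u) + 2 * Real.pi := by
    intro i n
    rw [← L2]
    congr 1
    rw [hu]
    push_cast
    ring
  have hmono : ∀ i ≤ N + 1, ∀ m n : ℤ, m < n → σ i (m * u) < σ i (n * u) :=
    fun i hi m n hmn => L4 i hi (unit_lt' hmn)
  -- the bottom body
  have bot : ∀ n : ℤ, (n % 16 = 1 ∨ n % 16 = 15) → σ 1 (n * u) = σ 0 (n * u) ∧
      ∃ n' : ℤ, σ 0 (n * u) = n' * u ∧ (n' % 16 = 1 ∨ n' % 16 = 15) := by
    intro n hn
    obtain ⟨h1, h2⟩ := L5 0 (by omega) (n * u) ((cross_bot_int N 1 hN _).mpr ⟨n, rfl, hn⟩)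
    exact ⟨h1, (cross_bot_int N (-1) hN _).mp h2⟩
  have mid : ∀ i, 1 ≤ i → i + 1 ≤ N → ∀ n : ℤ, cls i n → σ (i + 1) (n * u) = σ i (n * u) ∧
      ∃ n' : ℤ, σ i (n * u) = n' * u ∧ cls i n' := by
    intro i h1 h2 n hn
    obtain ⟨h3, h4⟩ := L5 i (by omega) (n * u) ((cross_mid_int N 1 i h1 h2 _).mpr ⟨n, rfl, hn⟩)
    exact ⟨h3, (cross_mid_int N (-1) i h1 h2 _).mp h4⟩
  have hN2' : 2 ≤ N := by
    obtain ⟨r, hr⟩ := hN2
    omega
  -- the base case
  obtain ⟨k, hk⟩ : ∃ k : ℤ, ∀ n : ℤ, cls 1 n → σ 1 (n * u) = ((n + 16 * k : ℤ) : ℝ) * u := by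
    obtain ⟨a1, p, a2, a3⟩ := bot (-1) (by decide)
    obtain ⟨b1, q, b2, b3⟩ := bot 1 (by decide)
    have hc3 : cls 1 3 := by unfold cls; rw [if_neg (by decide)]; decide
    have hc5 : cls 1 5 := by unfold cls; rw [if_neg (by decide)]; decide
    have hc11 : cls 1 11 := by unfold cls; rw [if_neg (by decide)]; decide
    have hc13 : cls 1 13 := by unfold cls; rw [if_neg (by decide)]; decide
    obtain ⟨-, n3, d3, e3⟩ := mid 1 le_rfl (by omega) 3 hc3
    obtain ⟨-, n5, d5, e5⟩ := mid 1 le_rfl (by omega) 5 hc5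
    obtain ⟨-, n11, d11, e11⟩ := mid 1 le_rfl (by omega) 11 hc11
    obtain ⟨-, n13, d13, e13⟩ := mid 1 le_rfl (by omega) 13 hc13
    have m1 := hmono 1 (by omega) (-1) 1 (by norm_num)
    have m2 := hmono 1 (by omega) 1 3 (by norm_num)
    have m3 := hmono 1 (by omega) 3 5 (by norm_num)
    have m4 := hmono 1 (by omega) 5 11 (by norm_num)
    have m5 := hmono 1 (by omega) 11 13 (by norm_num)
    have m6 := hmono 1 (by omega) 13 15 (by norm_num)
    have s15 : σ 1 ((15 : ℤ) * u) = ((p + 16 : ℤ) : ℝ) * u := by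
      have := h16 1 (-1)
      norm_num at this
      norm_num
      norm_num at a1 a2
      rw [this, a1, a2, hu]
      ring
    rw [a1, a2, b1, b2] at m1
    rw [b1, b2, d3] at m2
    rw [d3, d5] at m3
    rw [d5, d11] at m4
    rw [d11, d13] at m5
    rw [d13, s15] at m6
    have m1 := unit_lt m1
    have m2 := unit_lt m2
    have m3 := unit_lt m3
    have m4 := unit_lt m4
    have m5 := unit_lt m5
    have m6 := unit_lt m6
    unfold cls at e3 e5 e11 e13
    rw [if_neg (by decide)] at e3 e5 e11 e13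
    obtain ⟨k, hk⟩ : ∃ k : ℤ, p = 16 * k - 1 ∧ n3 = 16 * k + 3 ∧ n5 = 16 * k + 5 ∧
        n11 = 16 * k + 11 ∧ n13 = 16 * k + 13 := by
      refine ⟨p / 16 + 1, ?_, ?_, ?_, ?_, ?_⟩ <;> omega
    obtain ⟨-, k3, k5, k11, k13⟩ := hk
    have hper : ∀ (j : ℤ) (n : ℤ) (r : ℤ), σ 1 (n * u) = (r : ℝ) * u →
        σ 1 ((n + 16 * j : ℤ) * u) = ((r + 16 * j : ℤ) : ℝ) * u := by
      intro j n r hr
      induction j using Int.induction_on with
      | zero => simpa using hr
      | succ j ih =>
        have := h16 1 (n + 16 * j)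
        rw [ih] at this
        rw [show n + 16 * ((j : ℤ) + 1) = n + 16 * j + 16 by ring, this, hu]
        push_cast
        ring
      | pred j ih =>
        have := h16 1 (n + 16 * (-(j : ℤ) - 1))
        rw [show n + 16 * (-(j : ℤ) - 1) + 16 = n + 16 * (-(j : ℤ)) by ring, ih] at this
        have h9 : σ 1 (((n + 16 * (-(j : ℤ) - 1) : ℤ) : ℝ) * u)
            = ((r + 16 * (-(j : ℤ)) : ℤ) : ℝ) * u - 2 * Real.pi := by linarith
        rw [h9, hu]
        push_cast
        ring
    refine ⟨k, fun n hn => ?_⟩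
    unfold cls at hn
    rw [if_neg (by decide)] at hn
    have hn' : n % 16 = 3 ∨ n % 16 = 5 ∨ n % 16 = 11 ∨ n % 16 = 13 := by omega
    rcases hn' with h | h | h | h
    · have := hper (n / 16) 3 n3 d3
      rw [show 3 + 16 * (n / 16) = n by omega] at this
      rw [this, show n3 + 16 * (n / 16) = n + 16 * k by omega]
    · have := hper (n / 16) 5 n5 d5
      rw [show 5 + 16 * (n / 16) = n by omega] at this
      rw [this, show n5 + 16 * (n / 16) = n + 16 * k by omega]
    · have := hper (n / 16) 11 n11 d11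
      rw [show 11 + 16 * (n / 16) = n by omega] at this
      rw [this, show n11 + 16 * (n / 16) = n + 16 * k by omega]
    · have := hper (n / 16) 13 n13 d13
      rw [show 13 + 16 * (n / 16) = n by omega] at this
      rw [this, show n13 + 16 * (n / 16) = n + 16 * k by omega]
  -- the chain
  have chain : ∀ i, 1 ≤ i → i + 1 ≤ N → ∀ n : ℤ, cls i n →
      σ i (n * u) = ((n + 16 * k : ℤ) : ℝ) * u := by
    intro i hi
    induction i, hi using Nat.le_induction with
    | base => exact fun _ => hk
    | succ i hi ih =>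
      intro hiN
      have ih' := ih (by omega)
      -- on the curve `i + 1`, values at the class of `i`
      have low : ∀ n : ℤ, cls i n → σ (i + 1) (n * u) = ((n + 16 * k : ℤ) : ℝ) * u := by
        intro n hn
        rw [(mid i hi (by omega) n hn).1, ih' n hn]
      rcases Nat.even_or_odd i with hev | hodd
      · have hne : ¬ Even (i + 1) := by
          rw [Nat.not_even_iff_odd]
          exact hev.add_one
        have key : ∀ j : ℤ, σ (i + 1) ((8 * j + 3 : ℤ) * u) = ((8 * j + 3 + 16 * k : ℤ) : ℝ) * u ∧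
            σ (i + 1) ((8 * j + 5 : ℤ) * u) = ((8 * j + 5 + 16 * k : ℤ) : ℝ) * u := by
          intro j
          have hcl : cls i (8 * j + 1) := by unfold cls; rw [if_pos hev]; omega
          have hcr : cls i (8 * j + 7) := by unfold cls; rw [if_pos hev]; omega
          have hc3 : cls (i + 1) (8 * j + 3) := by unfold cls; rw [if_neg hne]; omega
          have hc5 : cls (i + 1) (8 * j + 5) := by unfold cls; rw [if_neg hne]; omega
          obtain ⟨-, n3, d3, e3⟩ := mid (i + 1) (by omega) hiN _ hc3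
          obtain ⟨-, n5, d5, e5⟩ := mid (i + 1) (by omega) hiN _ hc5
          have m1 := hmono (i + 1) (by omega) (8 * j + 1) (8 * j + 3) (by omega)
          have m2 := hmono (i + 1) (by omega) (8 * j + 3) (8 * j + 5) (by omega)
          have m3 := hmono (i + 1) (by omega) (8 * j + 5) (8 * j + 7) (by omega)
          rw [low _ hcl, d3] at m1
          rw [d3, d5] at m2
          rw [low _ hcr, d5] at m3
          have m1 := unit_lt m1
          have m2 := unit_lt m2
          have m3 := unit_lt m3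
          unfold cls at e3 e5
          rw [if_neg hne] at e3 e5
          rw [d3, d5]
          constructor
          · rw [show n3 = 8 * j + 3 + 16 * k by omega]
          · rw [show n5 = 8 * j + 5 + 16 * k by omega]
        intro n hn
        unfold cls at hn
        rw [if_neg hne] at hn
        rcases hn with h | h
        · have := (key (n / 8)).1
          rw [show 8 * (n / 8) + 3 = n by omega] at this
          exact this
        · have := (key (n / 8)).2
          rw [show 8 * (n / 8) + 5 = n by omega] at this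
          exact this
      · have hne : ¬ Even i := Nat.not_even_iff_odd.mpr hodd
        have hev : Even (i + 1) := hodd.add_one
        have key : ∀ j : ℤ, σ (i + 1) ((8 * j - 1 : ℤ) * u) = ((8 * j - 1 + 16 * k : ℤ) : ℝ) * u ∧
            σ (i + 1) ((8 * j + 1 : ℤ) * u) = ((8 * j + 1 + 16 * k : ℤ) : ℝ) * u := by
          intro j
          have hcl : cls i (8 * j - 3) := by unfold cls; rw [if_neg hne]; omega
          have hcr : cls i (8 * j + 3) := by unfold cls; rw [if_neg hne]; omega
          have hc3 : cls (i + 1) (8 * j - 1) := by unfold cls; rw [if_pos hev]; omega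
          have hc5 : cls (i + 1) (8 * j + 1) := by unfold cls; rw [if_pos hev]; omega
          obtain ⟨-, n3, d3, e3⟩ := mid (i + 1) (by omega) hiN _ hc3
          obtain ⟨-, n5, d5, e5⟩ := mid (i + 1) (by omega) hiN _ hc5
          have m1 := hmono (i + 1) (by omega) (8 * j - 3) (8 * j - 1) (by omega)
          have m2 := hmono (i + 1) (by omega) (8 * j - 1) (8 * j + 1) (by omega)
          have m3 := hmono (i + 1) (by omega) (8 * j + 1) (8 * j + 3) (by omega)
          rw [low _ hcl, d3] at m1
          rw [d3, d5] at m2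
          rw [low _ hcr, d5] at m3
          have m1 := unit_lt m1
          have m2 := unit_lt m2
          have m3 := unit_lt m3
          unfold cls at e3 e5
          rw [if_pos hev] at e3 e5
          rw [d3, d5]
          constructor
          · rw [show n3 = 8 * j - 1 + 16 * k by omega]
          · rw [show n5 = 8 * j + 1 + 16 * k by omega]
        intro n hn
        unfold cls at hn
        rw [if_pos hev] at hn
        rcases hn with h | h
        · have := (key (n / 8)).2
          rw [show 8 * (n / 8) + 1 = n by omega] at this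
          exact this
        · have := (key (n / 8 + 1)).1
          rw [show 8 * (n / 8 + 1) - 1 = n by omega] at this
          exact this
  -- the top
  obtain ⟨P, hP⟩ : ∃ P, N = P + 1 := ⟨N - 1, by omega⟩
  have hPne : ¬ Even P := by
    intro h
    have := h.add_one
    rw [← hP] at this
    exact (Nat.not_even_iff_odd.mpr this) hN2
  have hP1 : 1 ≤ P := by omega
  have hcl : cls P (-3) := by unfold cls; rw [if_neg hPne]; decide
  have hcr : cls P 3 := by unfold cls; rw [if_neg hPne]; decide
  have t1 : σ N ((-3 : ℤ) * u) = ((-3 + 16 * k : ℤ) : ℝ) * u := by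
    have h1 := (mid P hP1 (by omega) (-3) hcl).1
    have h2 := chain P hP1 (by omega) (-3) hcl
    rw [← hP] at h1
    rw [h1, h2]
  have t2 : σ N ((3 : ℤ) * u) = ((3 + 16 * k : ℤ) : ℝ) * u := by
    have h1 := (mid P hP1 (by omega) 3 hcr).1
    have h2 := chain P hP1 (by omega) 3 hcr
    rw [← hP] at h1
    rw [h1, h2]
  obtain ⟨-, h5⟩ := L5 N le_rfl (Real.pi / 8) (cross_topA N hN hN2)
  obtain ⟨n, hn1, hn2⟩ := cross_topB N hN hN2 _ h5
  have m1 := hmono N (by omega) (-3) 1 (by norm_num)
  have m2 := hmono N (by omega) 1 3 (by norm_num)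
  have hone : ((1 : ℤ) : ℝ) * u = Real.pi / 8 := by rw [hu]; norm_num
  rw [t1, hone, hn1] at m1
  rw [t2, hone, hn1] at m2
  have m1 := unit_lt m1
  have m2 := unit_lt m2
  omega

/-- For every `t ≥ 4` there is no integer `m` such that the combinatorial type of an arrangement
of planar convex bodies, any two of which have at most `t` common supporting tangents, is
determined by the combinatorial types of its sub-arrangements of size `m`. -/
theorem result : ∀ t : ℕ, 4 ≤ t → ¬ ∃ m : ℕ, LocallyDetermined t m := by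
  rintro t ht ⟨m, hm⟩
  have e1 : |(1 : ℝ)| = 1 := abs_one
  have e2 : |(-1 : ℝ)| = 1 := by norm_num
  have hN : 1 ≤ 2 * m + 2 := by omega
  have hN2 : Even (2 * m + 2) := by
    rw [show 2 * m + 2 = 2 * (m + 1) by ring]
    exact even_two_mul _
  have h := hm (Fin (2 * m + 2 + 2)) (fam (2 * m + 2) 1) (fam (2 * m + 2) (-1))
    (isArrangement_fam _ _ e1 hN hN2) (isArrangement_fam _ _ e2 hN hN2)
    (fun i j hij => (ncard_commonTangents _ _ e1 hN hN2 i j hij).trans ht)
    (fun i j hij => (ncard_commonTangents _ _ e2 hN hN2 i j hij).trans ht)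
  apply not_sameType (2 * m + 2) hN hN2
  apply h
  intro S hS
  have hcard : Nat.card (Fin (2 * m + 2 + 2)) = 2 * m + 2 + 2 := by simp
  rw [hcard, min_eq_left (by omega)] at hS
  obtain ⟨j, hj⟩ : ∃ j, j ∉ S := by
    by_contra hcon
    push Not at hcon
    have : S = Set.univ := Set.eq_univ_of_forall hcon
    rw [this, Set.ncard_univ, hcard] at hS
    omega
  exact sameType_local (2 * m + 2) S j hj

end Pool.Agent.Results.MP_f9fe38_co.NoLocalBound
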